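import Pool.Agent.Helper12.XG.St
import Mathlib.NumberTheory.SiegelsLemma

/-!
# Project XG, module SIG: Siegel's lemma
-/

set_option autoImplicit false

namespace Pool.Agent.Helper81.XG

open Finset Polynomial Pool.Agent.Helper12.XG Pool.Agent.Helper14.GS

attribute [local instance] Matrix.seminormedAddCommGroup

/-- the matrix -/
private def mat (E q : ℕ) : Matrix (Fin (E * q)) (Fin (E ^ 2 + 1) × Fin q) ℤ :=
  fun k jb => ((k.val.choose jb.2.val : ℕ) : ℤ) * (-(jb.1.val : ℤ)) ^ (k.val - jb.2.val)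

private lemma choose_pow_le (k j b : ℕ) : k.choose b * j ^ (k - b) ≤ (j + 1) ^ k := by
  rcases le_or_gt b k with h | h
  · rw [add_comm j 1, add_pow]
    have h2 := Finset.single_le_sum (f := fun i => 1 ^ i * j ^ (k - i) * k.choose i)
      (s := range (k + 1)) (fun i _ => Nat.zero_le _) (mem_range.mpr (Nat.lt_succ_of_le h))
    simp only [one_pow, one_mul] at h2 ⊢
    rw [mul_comm]
    exact h2
  · rw [Nat.choose_eq_zero_of_lt h, zero_mul]
    exact Nat.zero_le _

private lemma mat_le (E q : ℕ) (k : Fin (E * q)) (jb : Fin (E ^ 2 + 1) × Fin q) :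
    |mat E q k jb| ≤ ((E : ℤ) ^ 2 + 1) ^ (E * q) := by
  unfold mat
  rw [abs_mul, abs_pow, abs_neg, Nat.abs_cast, Nat.abs_cast]
  have h1 : k.val.choose jb.2.val * jb.1.val ^ (k.val - jb.2.val) ≤ (jb.1.val + 1) ^ k.val :=
    choose_pow_le _ _ _
  have h3 : (jb.1.val + 1) ^ k.val ≤ (E ^ 2 + 1) ^ (E * q) :=
    (Nat.pow_le_pow_left (Nat.succ_le_of_lt jb.1.isLt) _).trans
      (Nat.pow_le_pow_right (Nat.succ_pos _) k.isLt.le)
  exact_mod_cast h1.trans h3

private lemma norm_mat_le (E q : ℕ) : ‖mat E q‖ ≤ ((E : ℝ) ^ 2 + 1) ^ (E * q) := by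
  rw [Matrix.norm_le_iff (by positivity)]
  intro k jb
  rw [Int.norm_eq_abs]
  exact_mod_cast mat_le E q k jb

private lemma real_bound (E q : ℕ) (hE : 2 ≤ E) (hq : 1 ≤ q) :
    (((E ^ 2 + 1) * q : ℕ) * max 1 ‖mat E q‖ : ℝ) ^
      (((E * q : ℕ) : ℝ) / ((((E ^ 2 + 1) * q : ℕ) : ℝ) - ((E * q : ℕ) : ℝ))) ≤
      (2 * ((E : ℝ) ^ 2 + 1) ^ 3) ^ q := by
  have hE' : (2 : ℝ) ≤ E := by exact_mod_cast hE
  have hq' : (1 : ℝ) ≤ q := by exact_mod_cast hq
  set D : ℝ := (E : ℝ) ^ 2 + 1 with hD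
  have hD1 : 1 ≤ D := by rw [hD]; nlinarith
  have hmax : max 1 ‖mat E q‖ ≤ D ^ (E * q) :=
    max_le (one_le_pow₀ hD1) (norm_mat_le E q)
  have hcast : (((E ^ 2 + 1) * q : ℕ) : ℝ) = D * q := by push_cast; rw [hD]
  rw [hcast]
  set e : ℝ := ((E * q : ℕ) : ℝ) / (D * q - ((E * q : ℕ) : ℝ)) with he
  have hden : 0 < D - E := by rw [hD]; nlinarith
  have he' : e = E / (D - E) := by
    rw [he]
    push_cast
    rw [← sub_mul]
    exact mul_div_mul_right _ _ (by positivity)
  have he0 : 0 ≤ e := by rw [he']; positivity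
  have he1 : e ≤ 1 := by
    rw [he', div_le_one hden, hD]; nlinarith [sq_nonneg ((E : ℝ) - 1)]
  have he2 : (E : ℝ) * e ≤ 2 := by
    rw [he', mul_div_assoc', div_le_iff₀ hden, hD]; nlinarith [sq_nonneg ((E : ℝ) - 1)]
  have hX : (1 : ℝ) ≤ D * q := by nlinarith
  calc (D * q * max 1 ‖mat E q‖) ^ e ≤ (D * q * D ^ (E * q)) ^ e := by
        apply Real.rpow_le_rpow _ _ he0
        · positivity
        · exact mul_le_mul_of_nonneg_left hmax (by positivity)
    _ = (D * q) ^ e * (D ^ (E * q)) ^ e := Real.mul_rpow (by positivity) (by positivity)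
    _ ≤ (D * q) * D ^ (2 * q) := by
        apply mul_le_mul _ _ (by positivity) (by positivity)
        · calc (D * q) ^ e ≤ (D * q) ^ (1 : ℝ) := Real.rpow_le_rpow_of_exponent_le hX he1
            _ = D * q := Real.rpow_one _
        · have h1 : (D ^ (E * q)) ^ e = D ^ (((E * q : ℕ) : ℝ) * e) := by
            rw [← Real.rpow_natCast D (E * q), ← Real.rpow_mul (by positivity)]
          rw [h1, ← Real.rpow_natCast D (2 * q)]
          apply Real.rpow_le_rpow_of_exponent_le hD1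
          push_cast
          nlinarith
    _ ≤ D * 2 ^ q * D ^ (2 * q) := by
        have h2 : (q : ℝ) ≤ 2 ^ q := by exact_mod_cast (Nat.lt_two_pow_self (n := q)).le
        have h3 : (0 : ℝ) ≤ D ^ (2 * q) := by positivity
        have h4 : D * q ≤ D * 2 ^ q := mul_le_mul_of_nonneg_left h2 (by positivity)
        exact mul_le_mul_of_nonneg_right h4 h3
    _ = 2 ^ q * D ^ (2 * q + 1) := by ring
    _ ≤ 2 ^ q * D ^ (3 * q) := by
        apply mul_le_mul_of_nonneg_left _ (by positivity)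
        exact pow_le_pow_right₀ hD1 (by omega)
    _ = (2 * D ^ 3) ^ q := by rw [mul_pow, ← pow_mul]

theorem hSIG : Pool.Agent.Helper12.XG.StSIG := by
  intro E q hE hq
  have hq0 : 0 < q := hq
  have hE0 : 0 < E := by omega
  have hn : Fintype.card (Fin (E * q)) < Fintype.card (Fin (E ^ 2 + 1) × Fin q) := by
    simp only [Fintype.card_fin, Fintype.card_prod]
    apply Nat.mul_lt_mul_of_pos_right _ hq0
    nlinarith
  have hm : 0 < Fintype.card (Fin (E * q)) := by
    simp only [Fintype.card_fin]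
    exact Nat.mul_pos hE0 hq0
  obtain ⟨t, ht0, htA, htn⟩ := Int.Matrix.exists_ne_zero_int_vec_norm_le (mat E q) hn hm
  have hB : ‖t‖ ≤ (2 * ((E : ℝ) ^ 2 + 1) ^ 3) ^ q := by
    refine htn.trans ?_
    have := real_bound E q hE hq
    simpa only [Fintype.card_fin, Fintype.card_prod] using this
  classical
  refine ⟨fun j b => if h : j < E ^ 2 + 1 ∧ b < q then t (⟨j, h.1⟩, ⟨b, h.2⟩) else 0, ?_, ?_, ?_⟩
  · obtain ⟨⟨j, b⟩, hjb⟩ := Function.ne_iff.mp ht0
    refine ⟨j.val, mem_range.mpr j.isLt, b.val, mem_range.mpr b.isLt, ?_⟩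
    simp only [j.isLt, b.isLt, and_self, dite_true]
    exact hjb
  · intro j b
    beta_reduce
    split_ifs with h
    · have h1 : ‖t (⟨j, h.1⟩, ⟨b, h.2⟩)‖ ≤ (2 * ((E : ℝ) ^ 2 + 1) ^ 3) ^ q :=
        (norm_le_pi_norm t _).trans hB
      rw [Int.norm_eq_abs] at h1
      exact_mod_cast h1
    · rw [abs_zero]; positivity
  · intro k hk
    have h1 := congrFun htA ⟨k, hk⟩
    rw [Pi.zero_apply] at h1
    unfold mom
    rw [← h1]
    unfold Matrix.mulVec dotProduct
    rw [Fintype.sum_prod_type, Finset.sum_range]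
    refine Finset.sum_congr rfl fun j _ => ?_
    rw [Finset.sum_range]
    refine Finset.sum_congr rfl fun b _ => ?_
    simp only [j.isLt, b.isLt, and_self, dite_true, Fin.eta]
    unfold mat
    ring

end Pool.Agent.Helper81.XG
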